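import Pool.Agent.H6.RCQ.Stmts4
import Pool.Agent.H6.RCQ.Util

/-!
# Project RCQ, module GT: separated classes
-/

set_option autoImplicit false

namespace Pool.Agent.H70.RCQ.GT

open Pool.Agent.H39.RC Pool.Agent.H6.RCQ
open Classical

theorem jn_symm {V : Type} {G : SimpleGraph V} {X : Set V} {a b : V} (h : Jn G X a b) :
    Jn G X b a := by
  obtain ⟨Z, h1, h2, h3, h4⟩ := h
  exact ⟨Z, h2, h1, h3, h4⟩

theorem jn_trans {V : Type} {G : SimpleGraph V} {X : Set V} {a b c : V} (h : Jn G X a b)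
    (h' : Jn G X b c) : Jn G X a c := by
  obtain ⟨Z, h1, h2, h3, h4⟩ := h
  obtain ⟨Y, k1, k2, k3, k4⟩ := h'
  refine ⟨Z ∪ Y, Or.inl h1, Or.inr k2, h3.union k3 h2 k1, ?_⟩
  rintro z (hz | hz)
  · exact h4 z hz
  · exact k4 z hz

theorem jn_refl {V : Type} {G : SimpleGraph V} {X : Set V} {a : V} (h : a ∉ X) :
    Jn G X a a := by
  refine ⟨{a}, rfl, rfl, con_single a, ?_⟩
  intro z hz
  rw [Set.mem_singleton_iff] at hz
  rwa [hz]

theorem gt : GTStmt := by
  intro V G R S i hi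
  refine ⟨(R \ S).filter (fun v => Jn G ↑S i v), (R \ S).filter (fun v => ¬ Jn G ↑S i v),
    Finset.filter_union_filter_not_eq _ _, Finset.disjoint_filter_filter_not _ _ _, ?_, ?_, ?_⟩
  · rw [Finset.mem_filter]
    refine ⟨hi, jn_refl ?_⟩
    have := (Finset.mem_sdiff.mp hi).2
    exact_mod_cast this
  · intro v hv
    rw [Finset.mem_filter]
    exact ⟨fun h => h.2, fun h => ⟨hv, h⟩⟩
  · intro i' hi' o ho hJ
    rw [Finset.mem_filter] at hi' ho
    exact ho.2 (jn_trans hi'.2 hJ)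

end Pool.Agent.H70.RCQ.GT
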