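import Pool.Agent.H6.RCQ.Stmts5
import Pool.Agent.H6.RCQ.Util

/-!
# Project RCQ, module TP5: drawings give minors of triangulated spheres
-/

set_option autoImplicit false

namespace Pool.Agent.H70.RCQ.TP5

open Pool.Agent.H39.RC Pool.Agent.H6.RCQ
open Classical

/-- images of connected sets under maps preserving adjacency -/
theorem con_image {V W : Type} {G : SimpleGraph V} {H : SimpleGraph W} (ι : V → W)
    (hι : ∀ a b, G.Adj a b → H.Adj (ι a) (ι b)) {S : Set V} (hS : Con G S) :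
    Con H (ι '' S) := by
  let φ : G.induce S →g H.induce (ι '' S) :=
    { toFun := fun x => ⟨ι x.1, x.1, x.2, rfl⟩
      map_rel' := fun {a b} h => hι _ _ h }
  have hφ : Function.Surjective φ := by
    rintro ⟨_, x, hx, rfl⟩
    exact ⟨⟨x, hx⟩, rfl⟩
  exact hS.map φ hφ

/-- minors are transferred along injective maps preserving adjacency -/
theorem minor_image {V W U : Type} {G : SimpleGraph V} {H : SimpleGraph W} {K : SimpleGraph U}
    (ι : V → W) (hi : Function.Injective ι) (hι : ∀ a b, G.Adj a b → H.Adj (ι a) (ι b))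
    (h : HasMinor G K) : HasMinor H K := by
  obtain ⟨B, h1, h2, h3⟩ := h
  refine ⟨fun w => ι '' B w, fun w => con_image ι hι (h1 w), ?_, ?_⟩
  · intro w w' hw
    exact (Set.disjoint_image_iff hi).mpr (h2 w w' hw)
  · intro w w' hw
    obtain ⟨x, hx, y, hy, hxy⟩ := h3 w w' hw
    exact ⟨ι x, ⟨x, hx, rfl⟩, ι y, ⟨y, hy, rfl⟩, hι _ _ hxy⟩

theorem tp5 (h1 : TP1Stmt) (h2 : TP2Stmt) (h3 : TP3Stmt) (h4 : TP4Stmt) : TP5Stmt := by
  intro V G p γ hfin hd
  obtain ⟨ε, δ, f, hf⟩ := h1 V G p γ hfin hd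
  obtain ⟨n, B, C, hM⟩ := h2 V G p ε δ f hfin hf
  have hm := h3 V _ G (GR n) B C hM
  obtain ⟨F, hF, ι, hi, hι⟩ := h4 n
  refine ⟨F, hF, minor_image ι hi ?_ hm⟩
  intro a b hab
  exact ⟨fun h => hab.ne (hi h), Or.inl (hι a b hab)⟩

end Pool.Agent.H70.RCQ.TP5
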